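import Pool.Agent.Lib.MP_a0c85e_lc.Main

/-!
If the generalized continuum hypothesis holds at `l` and at its successor `k`, and there is no
Souslin tree on the successor of `k`, then one sequence guesses, at points of cofinality `l`,
a family of nowhere dense trees whose branches cover all functions from `k` to `k`.
-/

open Cardinal Set Order

namespace Pool.Agent.Results.MP_a0c85e_lc.MeagerDiamond

open Pool.Agent.Lib.MP_a0c85e_lc

universe u

theorem result (l : Cardinal.{u}) (hl : l.IsRegular) (h1 : 2 ^ l = succ l)
    (h2 : 2 ^ succ l = succ (succ l))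
    (hno : ∀ (T : Type u) [PartialOrder T] [WellFoundedLT T], ¬ IsSouslin (succ l) T) :
    ∃ W : (succ l).ord.ToType → Set (Seq (succ l).ord.ToType),
      ∀ f : (succ l).ord.ToType → (succ l).ord.ToType, ∃ U : Set (Seq (succ l).ord.ToType),
        NowhereDenseTree U ∧ (∀ i, res f i ∈ U) ∧
          IsStationary {d : (succ l).ord.ToType |
            Order.cof (Iio d) = l ∧ {s ∈ U | s.1 < d} = W d} := by
  by_contra! hW
  obtain ⟨T, hT⟩ := (setup hl h1 h2).main (by rw [Ordinal.type_toType, mk_ord_toType]) hW
  rw [mk_ord_toType] at hT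
  exact hno _ hT

end Pool.Agent.Results.MP_a0c85e_lc.MeagerDiamond
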