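import Pool.Agent.Variants.MP_a0c85e_lc.ClubDiamond

/-! The earlier hand-in (guessing nowhere dense trees) follows from the guessing of clubs. -/

open Cardinal Set Order

namespace Pool.Agent.Variants.MP_a0c85e_lc

open Pool.Agent.Lib.MP_a0c85e_lc

universe u

theorem meager_of_club (l : Cardinal.{u}) (hl : l.IsRegular) (h1 : 2 ^ l = succ l)
    (h2 : 2 ^ succ l = succ (succ l))
    (hno : ∀ (T : Type u) [PartialOrder T] [WellFoundedLT T], ¬ IsSouslin (succ l) T) :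
    ∃ W : (succ l).ord.ToType → Set (Seq (succ l).ord.ToType),
      ∀ f : (succ l).ord.ToType → (succ l).ord.ToType, ∃ U : Set (Seq (succ l).ord.ToType),
        NowhereDenseTree U ∧ (∀ i, res f i ∈ U) ∧
          IsStationary {d : (succ l).ord.ToType |
            Order.cof (Iio d) = l ∧ {s ∈ U | s.1 < d} = W d} := by
  classical
  have h := setup hl h1 h2
  obtain ⟨W, hW⟩ := Pool.Agent.Results.MP_a0c85e_lc.ClubDiamond.result l hl h1 h2 hno
  refine ⟨fun d => {s | (∀ j : Iio s.1, ∀ c ∈ W d, j.1 < c → s.2 j < c) ∧ s.1 < d}, fun f => ?_⟩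
  obtain ⟨C, hC, hC', hs⟩ := hW _ (h.clubK f)
  have h3 : ∀ a, ∃ c ∈ C, a < c := fun a => by
    obtain ⟨b, hb⟩ := h.exists_gtK a
    obtain ⟨c, h3, h4⟩ := hC'.isCofinal b
    exact ⟨c, h3, hb.trans_le h4⟩
  choose g hg hg' using h3
  refine ⟨{s | ∀ j : Iio s.1, ∀ c ∈ C, j.1 < c → s.2 j < c},
    ⟨fun f i j hij h4 k => h4 ⟨k.1, lt_of_lt_of_le k.2 hij⟩, fun f i => ?_⟩,
    fun i j c hc h4 => hC hc j h4, fun t ht => ?_⟩
  · refine ⟨Function.update f i (g i), g i, (hg' i).le,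
      res_eq.2 fun j hj => Function.update_of_ne hj.ne _ _, fun h4 => ?_⟩
    have := h4 ⟨i, hg' i⟩ (g i) (hg i) (hg' i)
    simp [res] at this
  · have hne : Order.cof (succ l).ord.ToType ≠ ℵ₀ := by rw [h.cofK, ← h.cardK]; exact h.inf.ne'
    obtain ⟨d, ⟨h4, h5⟩, h6, h7⟩ := hs ((h.clubK g).inter hne ht)
    refine ⟨d, ⟨h4, Set.ext fun s => and_congr_left fun h8 => forall_congr' fun j => ?_⟩, h7⟩
    rw [← h5]
    refine ⟨fun h9 c hc => h9 c hc.1, fun h9 c hc h10 => ?_⟩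
    rcases lt_or_ge c d with h11 | h11
    · exact h9 c ⟨hc, h11⟩ h10
    · have h12 := h6 j (lt_trans j.2 h8)
      exact (h9 _ ⟨hg j, h12⟩ (hg' j)).trans (h12.trans_le h11)

end Pool.Agent.Variants.MP_a0c85e_lc
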